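import Pool.Agent.Helper5.EA3.Final4
import Pool.Agent.Helper11.EA3.MaxMin
import Pool.Agent.Helper32.KK.Mods

/-!
# MP_b6b996_nt: the random model and all its thin modifications at every scale, exact constants

Let `ε p` (`p` prime) be independent random signs with `∑ (P(ε p = 1) - 1/2)² < ∞`. For a choice of signs `s(p) = ±1` let
`f(n) = μ(n)^2 ∏_{p ∣ n} s(p)` (for the Moebius function all signs are `-1`), `F_N(x) = ∑_{n ≤ N} f(n) e(n x)`,
`G_N = F_N / √(N log N)`. Almost surely, for every choice of signs `s` with `∑ |s(p) - ε p| / √p < ∞` and every `κ ∈ [0,1)`: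

* the smallest of the maxima of `|G_N|` over the arcs `[a, a + N^(-κ)]` tends to `√(1-κ) · √6/π`
  (`κ = 0`: the maximum of `|F_N|` is asymptotically `(√6/π) √(N log N)`);
* for every open set `O` of complex numbers which meets the disc `|z| < √(1-κ) √6/π`, the smallest measure of
  `{x ∈ [a, a + N^(-κ)] : G_N(x) ∈ O}` over all `a` is `N^(-κ - (π²/6) dist(0,O)² + o(1))`;
* if `dist(0,O) > √(1-κ) √6/π` then, for all large `N`, some arc `[a, a + N^(-κ)]` contains no `x` with `G_N(x) ∈ O`.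
-/

set_option autoImplicit false

namespace Pool.Agent.Results.MP_b6b996_nt.EveryScale

open Finset MeasureTheory ProbabilityTheory Filter Topology

/-- The function `μ(n)^2 ∏_{p ∣ n} s(p)` attached to the signs `s(p)` of the primes. -/
noncomputable def signed (s : Nat.Primes → ℝ) (n : ℕ) : ℝ :=
  if Squarefree n then ∏ p ∈ n.primeFactors.attach, s ⟨p, Nat.prime_of_mem_primeFactors p.2⟩ else 0

/-- The exponential sum `∑ f(n) e^{2 π i n x}` over `1 ≤ n ≤ N`. -/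
noncomputable def F (f : ℕ → ℝ) (N : ℕ) (x : ℝ) : ℂ :=
  ∑ n ∈ Icc 1 N, (f n : ℂ) * Complex.exp (2 * Real.pi * Complex.I * n * x)

/-- The normalised sum `F_N(x) / √(N log N)`. -/
noncomputable def G (f : ℕ → ℝ) (N : ℕ) (x : ℝ) : ℂ := F f N x / (Real.sqrt (N * Real.log N) : ℝ)

/-- The statement about open sets for uniform signs. -/
theorem uniform {Ω : Type*} [MeasurableSpace Ω] (P : Measure Ω) [IsProbabilityMeasure P]
    (ε : Nat.Primes → Ω → ℝ) (hm : ∀ p, Measurable (ε p)) (hi : iIndepFun ε P)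
    (h1 : ∀ p, P {ω | ε p ω = 1} = 1 / 2) (h2 : ∀ p, P {ω | ε p ω = -1} = 1 / 2) :
    ∀ᵐ ω ∂P, Pool.Agent.Helper32.KK.SG fun p => ε p ω := by
  filter_upwards [Pool.Agent.Helper51.EA.every_scale P ε hm hi h2 h1] with ω k2
  have e2 : ∀ n : ℕ, signed (fun p => ε p ω) n =
      Pool.Agent.Helper5.RM.rs (Pool.Agent.Helper5.RM.ext ε) ω n := by
    intro n
    unfold signed Pool.Agent.Helper5.RM.rs
    split_ifs with hn
    · rw [← Finset.prod_attach n.primeFactors (fun p => Pool.Agent.Helper5.RM.ext ε p ω)]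
      refine Finset.prod_congr rfl fun p _ => ?_
      unfold Pool.Agent.Helper5.RM.ext
      rw [dif_pos (Nat.prime_of_mem_primeFactors p.2)]
    · rfl
  have e1 : ∀ (N : ℕ) (x : ℝ), F (signed fun p => ε p ω) N x =
      ∑ n ∈ Icc 1 N, (Pool.Agent.Helper5.RM.rs (Pool.Agent.Helper5.RM.ext ε) ω n : ℂ) *
        Pool.Agent.Helper5.RM.e (n * x) := by
    intro N x
    unfold F Pool.Agent.Helper5.RM.e
    refine Finset.sum_congr rfl fun n _ => ?_
    rw [e2]
    congr 2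
    push_cast
    ring
  have e3 : Pool.Agent.Helper32.KK.FF (Pool.Agent.Helper32.KK.sgn fun p => ε p ω) =
      fun N x => ∑ n ∈ Icc 1 N, (Pool.Agent.Helper5.RM.rs (Pool.Agent.Helper5.RM.ext ε) ω n : ℂ) * Pool.Agent.Helper5.RM.e (n * x) := by
    funext N x
    exact e1 N x
  intro κ hκ0 hκ1
  rw [e3]
  exact k2 κ hκ0 hκ1

theorem result {Ω : Type*} [MeasurableSpace Ω] (P : Measure Ω) [IsProbabilityMeasure P]
    (ε : Nat.Primes → Ω → ℝ) (_ : ∀ p, Measurable (ε p)) (_ : iIndepFun ε P)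
    (_ : ∀ p, P {ω | ε p ω = 1} + P {ω | ε p ω = -1} = 1)
    (_ : Summable fun p => ((P {ω | ε p ω = 1}).toReal - 1 / 2) ^ 2) :
    ∀ᵐ ω ∂P, ∀ s : Nat.Primes → ℝ, (∀ p, s p = 1 ∨ s p = -1) →
      (Summable fun p : Nat.Primes => |s p - ε p ω| / Real.sqrt (p : ℕ)) → ∀ κ : ℝ, 0 ≤ κ → κ < 1 →
      Tendsto (fun N : ℕ => (⨅ a : ℝ, sSup ((fun x : ℝ => ‖F (signed s) N x‖) '' Set.Icc a (a + (N : ℝ) ^ (-κ)))) /
        Real.sqrt (N * Real.log N)) atTop (𝓝 (Real.sqrt (1 - κ) * (Real.sqrt 6 / Real.pi))) ∧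
      ∀ O : Set ℂ, IsOpen O →
        ((∃ z ∈ O, ‖z‖ < Real.sqrt (1 - κ) * (Real.sqrt 6 / Real.pi)) → Tendsto (fun N : ℕ =>
          Real.log (⨅ a : ℝ, (volume {x : ℝ | a ≤ x ∧ x ≤ a + (N : ℝ) ^ (-κ) ∧
            G (signed s) N x ∈ O}).toReal) / Real.log N) atTop
          (𝓝 (-κ - Real.pi ^ 2 / 6 * Metric.infDist 0 O ^ 2))) ∧
        (Real.sqrt (1 - κ) * (Real.sqrt 6 / Real.pi) < Metric.infDist 0 O →
          ∀ᶠ N : ℕ in atTop, ∃ a : ℝ, ∀ x : ℝ, a ≤ x → x ≤ a + (N : ℝ) ^ (-κ) → G (signed s) N x ∉ O) := by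
  rename_i hm hi hv hs
  filter_upwards [Pool.Agent.Helper32.KK.all_near (fun P _ ε hm hi h1 h2 => uniform P ε hm hi h1 h2) P ε hm hi hv hs]
    with ω h s hs1 hs2 κ hκ0 hκ1
  have k : Pool.Agent.Helper32.KK.OC (F (signed s)) κ := h s hs1 hs2 κ hκ0 hκ1
  exact ⟨Pool.Agent.Helper11.EA.maxmin_of (F (signed s)) (fun N => Pool.Agent.Helper32.KK.FF_continuous _ N) κ hκ0 hκ1 k, k⟩

end Pool.Agent.Results.MP_b6b996_nt.EveryScale
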