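import Pool.Agent.Helper92.GB.Theta
import Pool.Agent.Helper92.GB.U3
import Pool.Agent.Helper5.JB.HALF3
import Pool.Agent.Helper55.SP.EX4
import Pool.Agent.Helper80.LP.Exact
import Pool.Agent.Helper80.LP.Pair
import Pool.Agent.Helper23.LP.BR

/-!
# MP_b6b996_nt: which exponents the pair correlations, and all that is conjectured of them, allow

For an integer valued function `g` with `g² = μ²` and `0 < p ≤ ∞` let `θ_p(g)` be the growth exponent of the norm
`‖F_N‖_p` on `[0, 1]` of `F_N(x) = ∑_{n ≤ N} g(n) e(n x)`. Let `P` be the class of those `g` (multiplicative or not)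
with square root cancellation in the correlations `∑ g(n) g(n + h)` of order two, uniformly in the shift; let `A` be
the class of the multiplicative `g` whose sums twisted by `χ(n) n^{it}` satisfy the bounds that the generalised
Riemann hypothesis gives for `μ`, and `S` the class of the members of `A` whose correlations of every order `k ≥ 2`
have square root cancellation also when they are twisted by `χ(n) n^{it} e(n x)`, uniformly in the shifts and in all
twists (`S` is contained in `P`). For every `0 < p ≤ ∞` and every class `K` between `S` and `P` (for `p = ∞` between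
`S` and `A ∪ P`) the set of the values of `θ_p(g)`, `g` in `K`, is the interval `[1/2, max(1/2, 3/4 - 1/p)]`, and for
every `t` in the open interval `(1/2, 3/4 - 1/p)` some `g` in `S` has `limsup_N N^{-t} ‖F_N‖_p = 1`.
-/

set_option autoImplicit false

namespace Pool.Agent.Results.MP_b6b996_nt.FullSpectrum

open Finset

/-- The exponential sum `∑ g(n) e^{2 π i n x}` over `1 ≤ n ≤ N`. -/
noncomputable def F (g : ℕ → ℤ) (N : ℕ) (x : ℝ) : ℂ :=
  ∑ n ∈ Icc 1 N, (g n : ℂ) * Complex.exp (2 * Real.pi * Complex.I * n * x)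

/-- The norm of order `p` of `F g N` on `[0, 1]`, `0 < p ≤ ∞`. -/
noncomputable def normP (p : ENNReal) (g : ℕ → ℤ) (N : ℕ) : ℝ :=
  (MeasureTheory.eLpNorm (F g N) p (MeasureTheory.volume.restrict (Set.Icc (0 : ℝ) 1))).toReal

/-- The growth exponent of the norm of order `p` of the exponential sums of `g`. -/
noncomputable def theta (p : ENNReal) (g : ℕ → ℤ) : ℝ :=
  sInf {a : ℝ | 0 ≤ a ∧ ∃ C : ℝ, ∀ N : ℕ, 1 ≤ N → normP p g N ≤ C * (N : ℝ) ^ a}

/-- The multiplicative functions `g` with `g² = μ²` whose sums twisted by Dirichlet characters and by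
`n^{it}` satisfy the bounds which the generalised Riemann hypothesis gives for the Moebius function. -/
def RHClass : Set (ℕ → ℤ) :=
  {g | (∀ m n : ℕ, m.Coprime n → g (m * n) = g m * g n) ∧
    (∀ n : ℕ, g n ^ 2 = ArithmeticFunction.moebius n ^ 2) ∧
    ∀ ε : ℝ, 0 < ε → ∃ C : ℝ, ∀ (q : ℕ) (χ : DirichletCharacter ℂ q) (t : ℝ) (N : ℕ),
      1 ≤ q → 1 ≤ N →
      ‖∑ n ∈ Icc 1 N, (g n : ℂ) * χ n * (n : ℂ) ^ ((t : ℂ) * Complex.I)‖ ≤
        C * ((q : ℝ) * (1 + |t|) * N) ^ ε * (N : ℝ) ^ (1 / 2 : ℝ)}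

/-- The functions `g` with `g² = μ²`, multiplicative or not, with square root cancellation in the
correlations of order two (not twisted), uniformly in the length `M ≤ N` and in the shift `1 ≤ h ≤ N`. -/
def PairClass : Set (ℕ → ℤ) :=
  {g | (∀ n : ℕ, g n ^ 2 = ArithmeticFunction.moebius n ^ 2) ∧
    ∀ ε : ℝ, 0 < ε → ∃ C : ℝ, ∀ M N h : ℕ, M ≤ N → 1 ≤ h → h ≤ N →
      |((∑ n ∈ Icc 1 M, g n * g (n + h) : ℤ) : ℝ)| ≤ C * (N : ℝ) ^ (1 / 2 + ε)}

/-- The twisted correlation sum `∑ g(n + h₁) ⋯ g(n + h_k) χ(n) n^{it} e^{2 π i n x}` over `1 ≤ n ≤ M`. -/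
noncomputable def corrTw (g : ℕ → ℤ) {k : ℕ} (h : Fin k → ℕ) {q : ℕ} (χ : DirichletCharacter ℂ q)
    (t : ℝ) (M : ℕ) (x : ℝ) : ℂ :=
  ∑ n ∈ Icc 1 M, (∏ i, (g (n + h i) : ℂ)) *
    (χ n * (n : ℂ) ^ ((t : ℂ) * Complex.I) * Complex.exp (2 * Real.pi * Complex.I * n * x))

/-- The members of `RHClass` whose correlations of every order `k ≥ 2` have square root cancellation, also
when they are twisted by `χ(n) n^{it} e(n x)`, uniformly in the character, in `t`, in `x`, in the length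
`M ≤ N` and in the distinct shifts `0 ≤ h i ≤ N`. -/
def StrongClass : Set (ℕ → ℤ) :=
  {g | g ∈ RHClass ∧
    ∀ k : ℕ, 2 ≤ k → ∀ ε : ℝ, 0 < ε → ∃ C : ℝ, ∀ (q : ℕ) (χ : DirichletCharacter ℂ q) (t : ℝ) (M N : ℕ),
      1 ≤ q → M ≤ N → 1 ≤ N → ∀ h : Fin k → ℕ, Function.Injective h → (∀ i, h i ≤ N) → ∀ x : ℝ,
        ‖corrTw g h χ t M x‖ ≤ C * ((q : ℝ) * (1 + |t|) * N) ^ ε * (N : ℝ) ^ (1 / 2 : ℝ)}

lemma F_eq (g : ℕ → ℤ) (N : ℕ) (x : ℝ) : F g N x = Helper92.GB.F g N x := by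
  unfold F Helper92.GB.F Helper92.GB.e
  refine Finset.sum_congr rfl fun n _ => ?_
  congr 2
  push_cast
  ring

lemma F_fun (g : ℕ → ℤ) (N : ℕ) : F g N = Helper92.GB.F g N := funext fun x => F_eq g N x

lemma normP_fin {p : ENNReal} (h0 : p ≠ 0) (h1 : p ≠ ⊤) (g : ℕ → ℤ) (N : ℕ) :
    normP p g N = Helper80.LP.nrm p.toReal g N := by
  unfold normP
  rw [F_fun]
  exact Helper23.LP.norm_fin h0 h1 g N

lemma normP_top (g : ℕ → ℤ) (N : ℕ) : normP ⊤ g N = Helper80.LP.sup1 g N := by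
  unfold normP
  rw [F_fun]
  exact Helper23.LP.norm_top g N

lemma theta_fin {p : ENNReal} (h0 : p ≠ 0) (h1 : p ≠ ⊤) (g : ℕ → ℤ) :
    theta p g = Helper80.LP.thetaP p.toReal g := by
  unfold theta Helper80.LP.thetaP
  simp only [normP_fin h0 h1]

lemma theta_top (g : ℕ → ℤ) : theta ⊤ g = Helper92.GB.theta g := by
  unfold theta Helper92.GB.theta
  congr 1
  ext a
  simp only [normP_top]
  constructor
  · rintro ⟨h0, C, h⟩
    exact ⟨h0, C, fun N hN x hx => (Helper80.LP.le_sup1 g N hx).trans (h N hN)⟩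
  · rintro ⟨h0, C, h⟩
    exact ⟨h0, C, fun N hN => Helper80.LP.sup1_le g N (h N hN)⟩

lemma corrTw_eq (g : ℕ → ℤ) {k : ℕ} (h : Fin k → ℕ) {q : ℕ} (χ : DirichletCharacter ℂ q)
    (t : ℝ) (M : ℕ) (x : ℝ) : corrTw g h χ t M x = Helper5.JB.cort g h χ t M x := by
  unfold corrTw Helper5.JB.cort Helper92.GB.e
  refine Finset.sum_congr rfl fun n _ => ?_
  congr 2
  congr 1
  push_cast
  ring

lemma rh_iff (g : ℕ → ℤ) : g ∈ RHClass ↔ Helper92.GB.GRHClass g := by
  constructor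
  · rintro ⟨h1, h2, h3⟩
    exact ⟨h1, h2, h3⟩
  · rintro ⟨h1, h2, h3⟩
    exact ⟨h1, h2, h3⟩

lemma pair_iff (g : ℕ → ℤ) : g ∈ PairClass ↔ Helper80.LPP.PairClass g := by
  constructor
  · rintro ⟨h1, h2⟩
    exact ⟨h1, h2⟩
  · rintro ⟨h1, h2⟩
    exact ⟨h1, h2⟩

lemma strong_of (g : ℕ → ℤ) (h1 : Helper92.GB.GRHClass g) (h2 : Helper5.JB.TWC g) : g ∈ StrongClass := by
  refine ⟨(rh_iff g).mpr h1, fun k hk ε hε => ?_⟩
  obtain ⟨C, hC⟩ := h2 k hk ε hε
  refine ⟨C, fun q χ t M N hq hM hN h hh hl x => ?_⟩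
  rw [corrTw_eq]
  exact hC q χ t M N hq hM hN h hh hl x

/-- The strong class is contained in the class with pair correlations. -/
theorem strong_pair : StrongClass ⊆ PairClass := by
  rintro g ⟨h1, h2⟩
  have hone : ((1 : DirichletCharacter ℂ 1) (1 : ZMod 1)) = 1 := by
    apply MulChar.one_apply
    exact isUnit_of_subsingleton _
  have hpow : ∀ n : ℕ, (n : ℂ) ^ (((0 : ℝ) : ℂ) * Complex.I) = 1 := by
    intro n
    rw [Complex.ofReal_zero, zero_mul, Complex.cpow_zero]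
  have hchar : ∀ n : ℕ, ((1 : DirichletCharacter ℂ 1) (n : ZMod 1)) = 1 := by
    intro n
    rw [Subsingleton.elim (n : ZMod 1) 1]
    exact hone
  refine ⟨h1.2.1, fun ε hε => ?_⟩
  obtain ⟨C, hC⟩ := h2 2 le_rfl ε hε
  refine ⟨C, fun M N h hM hh hN => ?_⟩
  have hN1 : 1 ≤ N := by omega
  have hN0 : (0 : ℝ) < N := by exact_mod_cast hN1
  have h3 := hC 1 1 0 M N le_rfl hM hN1 ![0, h]
    (by
      intro i j hij
      fin_cases i <;> fin_cases j <;> simp at hij ⊢ <;> omega)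
    (by
      intro i
      fin_cases i
      · simp
      · simpa using hN) 0
  have h4 : corrTw g ![0, h] (1 : DirichletCharacter ℂ 1) 0 M 0 =
      (((∑ n ∈ Icc 1 M, g n * g (n + h) : ℤ) : ℝ) : ℂ) := by
    unfold corrTw
    push_cast
    refine Finset.sum_congr rfl fun n _ => ?_
    have h5 := hpow n
    push_cast at h5
    rw [hchar, h5, Fin.prod_univ_two]
    simp
  have h6 : (((1 : ℕ) : ℝ) * (1 + |(0 : ℝ)|) * N) ^ ε * (N : ℝ) ^ (1 / 2 : ℝ) = (N : ℝ) ^ (1 / 2 + ε) := by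
    have : ((1 : ℕ) : ℝ) * (1 + |(0 : ℝ)|) * N = N := by simp
    rw [this, Real.rpow_add hN0, mul_comm]
  rw [h4, Complex.norm_real, Real.norm_eq_abs, mul_assoc C, h6] at h3
  exact h3

/-- The exponents of the maximum. -/
theorem sup_part (K : Set (ℕ → ℤ)) (h1 : StrongClass ⊆ K) (h2 : K ⊆ RHClass ∪ PairClass) :
    theta ⊤ '' K = Set.Icc (1 / 2) (3 / 4) := by
  have hU : ∀ g ∈ K, ∀ ε : ℝ, 0 < ε → ∃ C : ℝ, ∀ N : ℕ, 1 ≤ N →
      ∀ x : ℝ, ‖Helper92.GB.F g N x‖ ≤ C * (N : ℝ) ^ (3 / 4 + ε) := by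
    intro g hg
    rcases h2 hg with h | h
    · exact Helper92.GB.U3 g ((rh_iff g).mp h)
    · exact Helper80.LPP.UPP g ((pair_iff g).mp h)
  have hU' : ∀ g ∈ K, ∃ a : ℝ, 0 ≤ a ∧ ∃ C : ℝ, ∀ N : ℕ, 1 ≤ N →
      ∀ x : ℝ, x ∈ Set.Icc (0 : ℝ) 1 → ‖Helper92.GB.F g N x‖ ≤ C * (N : ℝ) ^ a := by
    intro g hg
    obtain ⟨C, hC⟩ := hU g hg 1 one_pos
    exact ⟨3 / 4 + 1, by norm_num, C, fun N hN x _ => hC N hN x⟩
  have hsq : ∀ g ∈ K, ∀ n : ℕ, g n ^ 2 = ArithmeticFunction.moebius n ^ 2 := by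
    intro g hg
    rcases h2 hg with h | h
    · exact h.2.1
    · exact h.1
  apply Set.Subset.antisymm
  · rintro _ ⟨g, hg, rfl⟩
    rw [theta_top]
    exact ⟨Helper92.GB.half_le_theta g (hsq g hg) (hU' g hg),
      Helper92.GB.theta_le g _ (by norm_num) (hU g hg)⟩
  · rintro t ⟨ht1, ht2⟩
    rcases ht1.eq_or_lt with ht | ht
    · obtain ⟨g, ⟨hg1, hg2⟩, h⟩ := Helper5.JB.HALF3
      have hg : g ∈ K := h1 (strong_of g hg1 hg2)
      refine ⟨g, hg, ?_⟩
      rw [theta_top, ← ht]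
      exact le_antisymm (Helper92.GB.theta_le g _ (by norm_num) h)
        (Helper92.GB.half_le_theta g (hsq g hg) (hU' g hg))
    · obtain ⟨g, ⟨hg1, hg2⟩, hup, hlo⟩ := Helper55.SP.EX4 (3 / 2 - 2 * t) (by linarith) (by linarith)
      have hg : g ∈ K := h1 (strong_of g hg1 hg2)
      have e : 3 / 4 - (3 / 2 - 2 * t) / 2 = t := by ring
      rw [e] at hup hlo
      refine ⟨g, hg, ?_⟩
      rw [theta_top]
      exact le_antisymm (Helper92.GB.theta_le g _ (by linarith) hup)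
        (Helper92.GB.le_theta g _ (hU' g hg) hlo)

/-- The exponents above order four, for a finite order. -/
theorem high_part {p : ℝ} (hp : 4 < p) (K : Set (ℕ → ℤ)) (h1 : StrongClass ⊆ K) (h2 : K ⊆ PairClass) :
    Helper80.LP.thetaP p '' K = Set.Icc (1 / 2) (3 / 4 - 1 / p) := by
  have hp0 : 0 < p := by linarith
  have hB : ∀ g ∈ K, Helper80.LPP.PairClass g := fun g hg => (pair_iff g).mp (h2 hg)
  apply Set.Subset.antisymm
  · rintro _ ⟨g, hg, rfl⟩
    exact ⟨Helper80.LPP.half_le_thetaPQ hp0 g (hB g hg), (Helper80.LPP.thetaP_topQ hp g (hB g hg)).1⟩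
  · rintro t ⟨ht1, ht2⟩
    rcases ht1.eq_or_lt with ht | ht
    · obtain ⟨g, ⟨hg1, hg2⟩, h⟩ := Helper5.JB.HALF3
      have hg : g ∈ K := h1 (strong_of g hg1 hg2)
      refine ⟨g, hg, ?_⟩
      rw [← ht]
      refine le_antisymm ?_ (Helper80.LPP.half_le_thetaPQ hp0 g (hB g hg))
      refine Helper80.LP.thetaP_le p g _ (by norm_num) fun ε hε => ?_
      obtain ⟨C, hC⟩ := h ε hε
      exact ⟨|C|, Helper80.LP.setP_of hp0 g _ C fun N hN x _ => hC N hN x⟩
    · rcases ht2.eq_or_lt with ht' | ht'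
      · obtain ⟨g, hg, h⟩ : (3 / 4 : ℝ) ∈ theta ⊤ '' K := by
          rw [sup_part K h1 (h2.trans Set.subset_union_right)]
          exact ⟨by norm_num, le_rfl⟩
        refine ⟨g, hg, ?_⟩
        rw [ht']
        rw [theta_top] at h
        exact (Helper80.LPP.thetaP_topQ hp g (hB g hg)).2.2 h
      · obtain ⟨g, ⟨hg1, hg2⟩, h3, h4⟩ := Helper80.LP.EXACTP p hp t ht ht'
        have hg : g ∈ K := h1 (strong_of g hg1 hg2)
        exact ⟨g, hg, Helper80.LPP.thetaP_of_exactQ hp0 g (hB g hg) (by linarith) h3 h4⟩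

/-- The exponent up to order four. -/
theorem low_exp {p : ℝ} (hp : 0 < p) (hp4 : p ≤ 4) (g : ℕ → ℤ) (hg : g ∈ PairClass) :
    Helper80.LP.thetaP p g = 1 / 2 := by
  have hB := (pair_iff g).mp hg
  refine le_antisymm ?_ (Helper80.LPP.half_le_thetaPQ hp g hB)
  refine Helper80.LP.thetaP_le p g _ (by norm_num) fun ε hε => ?_
  obtain ⟨C, _, h⟩ := Helper80.LPP.nrm_upperQ hp hp4 g hB ε hε
  exact ⟨C, h⟩

/-- The exponents for a finite order. -/
theorem fin_part {p : ℝ} (hp : 0 < p) (K : Set (ℕ → ℤ)) (h1 : StrongClass ⊆ K) (h2 : K ⊆ PairClass) :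
    Helper80.LP.thetaP p '' K = Set.Icc (1 / 2) (max (1 / 2) (3 / 4 - 1 / p)) := by
  rcases le_or_gt p 4 with hp4 | hp4
  · have h3 : 3 / 4 - 1 / p ≤ 1 / 2 := by
      have : (1 : ℝ) / 4 ≤ 1 / p := one_div_le_one_div_of_le hp hp4
      linarith
    rw [max_eq_left h3, Set.Icc_self]
    have h4 : ∀ g ∈ K, Helper80.LP.thetaP p g = 1 / 2 := fun g hg => low_exp hp hp4 g (h2 hg)
    obtain ⟨g, ⟨hg1, hg2⟩, _⟩ := Helper5.JB.HALF3
    have hg : g ∈ K := h1 (strong_of g hg1 hg2)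
    apply Set.Subset.antisymm
    · rintro _ ⟨g', hg', rfl⟩
      exact h4 g' hg'
    · rintro _ rfl
      exact ⟨g, hg, h4 g hg⟩
  · have h3 : 1 / 2 ≤ 3 / 4 - 1 / p := by
      have : 1 / p ≤ (1 : ℝ) / 4 := one_div_le_one_div_of_le (by norm_num) hp4.le
      linarith
    rw [max_eq_right h3]
    exact high_part hp4 K h1 h2

/-- For every `0 < p ≤ ∞` and every class between `StrongClass` and `PairClass` (for `p = ∞` between
`StrongClass` and the union of `RHClass` and `PairClass`) the growth exponents of the norms of order `p` are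
exactly the numbers in `[1/2, max(1/2, 3/4 - 1/p)]`, and every power `N^t` with `1/2 < t < 3/4 - 1/p` is the
exact order of the norms for some member of `StrongClass`. -/
theorem result (p : ENNReal) (hp : 0 < p) (K : Set (ℕ → ℤ)) (h1 : StrongClass ⊆ K)
    (h2 : K ⊆ PairClass ∨ p = ⊤ ∧ K ⊆ RHClass ∪ PairClass) :
    theta p '' K = Set.Icc (1 / 2) (max (1 / 2) (3 / 4 - (p⁻¹).toReal)) ∧
    ∀ t : ℝ, 1 / 2 < t → t < 3 / 4 - (p⁻¹).toReal →
      ∃ g ∈ StrongClass, Filter.limsup (fun N : ℕ => normP p g N / (N : ℝ) ^ t) Filter.atTop = 1 := by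
  have hp0 : p ≠ 0 := hp.ne'
  rcases eq_or_ne p ⊤ with hpt | hpt
  · subst hpt
    have h3 : K ⊆ RHClass ∪ PairClass := by
      rcases h2 with h | ⟨_, h⟩
      · exact h.trans Set.subset_union_right
      · exact h
    rw [ENNReal.inv_top, ENNReal.toReal_zero, sub_zero, max_eq_right (by norm_num)]
    refine ⟨sup_part K h1 h3, fun t ht1 ht2 => ?_⟩
    obtain ⟨g, ⟨hg1, hg2⟩, h4, h5⟩ := Helper80.LP.EXACTI t ht1 ht2
    refine ⟨g, strong_of g hg1 hg2, ?_⟩
    simp only [normP_top]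
    exact Helper80.LP.limsup_one _ t h4 h5
  · have hq : 0 < p.toReal := ENNReal.toReal_pos hp0 hpt
    have hK : K ⊆ PairClass := by
      rcases h2 with h | ⟨h, _⟩
      · exact h
      · exact absurd h hpt
    have hi : (p⁻¹).toReal = 1 / p.toReal := by rw [ENNReal.toReal_inv, one_div]
    have hth : theta p = Helper80.LP.thetaP p.toReal := funext fun g => theta_fin hp0 hpt g
    rw [hi, hth]
    refine ⟨fin_part hq K h1 hK, fun t ht1 ht2 => ?_⟩
    have h4 : 4 < p.toReal := by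
      have h5 : 1 / p.toReal < 1 / 4 := by linarith
      exact (one_div_lt_one_div hq (by norm_num)).1 h5
    obtain ⟨g, ⟨hg1, hg2⟩, h5, h6⟩ := Helper80.LP.EXACTP p.toReal h4 t ht1 ht2
    refine ⟨g, strong_of g hg1 hg2, ?_⟩
    simp only [normP_fin hp0 hpt]
    exact Helper80.LP.limsup_one _ t h5 h6

end Pool.Agent.Results.MP_b6b996_nt.FullSpectrum
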