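import Pool.Agent.Helper17.L3.Fin

/-!
A lower bound for the `L^1` norm of the Moebius exponential sum: exponent `1/3`.
-/

namespace Pool.Agent.Results.MP_b6b996_nt.LOneNorm

/-- For every `ε > 0` and all large `N`,
`∫_0^1 |∑_{n ≤ N} μ(n) e(n x)| dx ≥ N ^ (1/3 - ε)`. -/
theorem result : ∀ ε : ℝ, 0 < ε → ∃ N₀ : ℕ, ∀ N : ℕ, N₀ ≤ N →
    (N : ℝ) ^ (1 / 3 - ε) ≤ ∫ x in (0 : ℝ)..1, ‖∑ n ∈ Finset.Icc 1 N,
      ((ArithmeticFunction.moebius n : ℤ) : ℂ) *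
        Complex.exp (2 * Real.pi * Complex.I * n * x)‖ := by
  intro ε hε
  exact Filter.eventually_atTop.1 (Pool.Agent.Helper17.L3.L1_main13 hε)

end Pool.Agent.Results.MP_b6b996_nt.LOneNorm
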