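import Pool.Agent.Helper25.WH.Final
import Pool.Agent.Helper55.CM.ZP
import Pool.Agent.Helper92.GB.Theta

/-!
# MP_b6b996_nt: the sup norm, the zeros of Dirichlet L-functions and the two point correlations

Two exponents bound the sup norm of the exponential sum with the Moebius function: `a`, for the zeros of
Dirichlet L-functions, and `c`, for the two point correlations. The bound is
`N^ε * min (min (N q^{-1/2} + N^{43/54}, N^{h(a)}) + (qN)^{1/2}, N^{g(a, c)})`, with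
`h(a) = max(a, min((13 + 4a)/20, 43/54))` and
`g(a, c) = min((1 + c)/2, max((1 + 3c)/(2 + 3c), (a + (1 + 4c)/(2 + 3c))/2, (1 + 2a)/3))`.
For `c = 1` the second hypothesis is trivial and the bound is the one from the zeros alone, and for `a = c = 1` it is
Vaughan's inequality with `43/54` in place of `4/5`. For `a = c = 1/2` the exponent is `5/7`. Conversely the bound
gives back the zero free half plane.
-/

set_option autoImplicit false

namespace Pool.Agent.Results.MP_b6b996_nt.ZerosAndPairs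

open Finset

/-- The exponential sum `∑ μ(n) e^{2 π i n x}` over `1 ≤ n ≤ N`. -/
noncomputable def F (N : ℕ) (x : ℝ) : ℂ :=
  ∑ n ∈ Icc 1 N, (ArithmeticFunction.moebius n : ℂ) * Complex.exp (2 * Real.pi * Complex.I * n * x)

/-- No Dirichlet L-function has a zero with real part `> a`. -/
def ZeroFree (a : ℝ) : Prop :=
  ∀ (q : ℕ) [NeZero q] (χ : DirichletCharacter ℂ q) (s : ℂ), a < s.re → s ≠ 1 →
    DirichletCharacter.LFunction χ s ≠ 0

/-- The two point correlations of the Moebius function have exponent `c`, uniformly in the shift `k` and in the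
length `M`. -/
def PairBound (c : ℝ) : Prop :=
  ∀ ε : ℝ, 0 < ε → ∃ C : ℝ, ∀ N M k : ℕ, M ≤ N → 1 ≤ k → k ≤ N →
    |((∑ n ∈ Icc 1 M, ArithmeticFunction.moebius n * ArithmeticFunction.moebius (n + k) : ℤ) : ℝ)| ≤
      C * (N : ℝ) ^ (c + ε)

/-- The bound with the exponents `s` and `t`. -/
def Bound (s t : ℝ) : Prop :=
  ∀ ε : ℝ, 0 < ε → ∃ C : ℝ, ∀ (N : ℕ) (x : ℝ) (b : ℤ) (q : ℕ), 1 ≤ N → 1 ≤ q → IsCoprime b (q : ℤ) →
    |x - b / q| ≤ 1 / (q : ℝ) ^ 2 →
      ‖F N x‖ ≤ C * (N : ℝ) ^ ε *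
        min (min (N / Real.sqrt q + (N : ℝ) ^ (43 / 54 : ℝ)) ((N : ℝ) ^ s) + Real.sqrt (q * N)) ((N : ℝ) ^ t)

/-- The exponent obtained from the half plane `Re s > a`. -/
noncomputable def h (a : ℝ) : ℝ := max a (min ((13 + 4 * a) / 20) (43 / 54))

/-- The exponent obtained from the half plane and the two point correlations. -/
noncomputable def g (a c : ℝ) : ℝ :=
  min ((1 + c) / 2) (max ((1 + 3 * c) / (2 + 3 * c)) (max ((a + (1 + 4 * c) / (2 + 3 * c)) / 2) ((1 + 2 * a) / 3)))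

/-- The growth exponent `θ` of the problem. -/
noncomputable def theta : ℝ :=
  sInf {a : ℝ | 0 ≤ a ∧ ∃ C : ℝ, ∀ N : ℕ, 1 ≤ N → ∀ x ∈ Set.Icc (0 : ℝ) 1, ‖F N x‖ ≤ C * (N : ℝ) ^ a}

/-- The infimum of the `a ≥ 1/2` such that no Dirichlet L-function has a zero with real part `> a`. -/
noncomputable def Theta : ℝ := sInf {a : ℝ | 1 / 2 ≤ a ∧ ZeroFree a}

/-- The infimum of the exponents `c ≥ 1/2` of the two point correlations. -/
noncomputable def gamma : ℝ := sInf {c : ℝ | 1 / 2 ≤ c ∧ PairBound c}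

lemma F_eq (N : ℕ) (x : ℝ) : F N x = Pool.Helper19.V4.FM N x := by
  unfold F Pool.Helper19.V4.FM Pool.Helper19.V4.ex
  refine Finset.sum_congr rfl fun n _ => ?_
  congr 2
  push_cast
  ring

lemma F_eq' (N : ℕ) (x : ℝ) : F N x = Helper92.GB.F Helper55.CM.mu N x := by
  unfold F Helper92.GB.F Helper92.GB.e Helper55.CM.mu
  refine Finset.sum_congr rfl fun n _ => ?_
  congr 2
  push_cast
  ring

lemma old (a : ℝ) (ha : 1 / 2 ≤ a) :
    (ZeroFree a → ∀ ε : ℝ, 0 < ε → ∃ C : ℝ, ∀ (N : ℕ) (x : ℝ) (b : ℤ) (q : ℕ), 1 ≤ N → 1 ≤ q →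
      IsCoprime b (q : ℤ) → |x - b / q| ≤ 1 / (q : ℝ) ^ 2 →
      ‖F N x‖ ≤ C * (N : ℝ) ^ ε *
        (min (N / Real.sqrt q + (N : ℝ) ^ (43 / 54 : ℝ)) ((N : ℝ) ^ h a) + Real.sqrt (q * N))) ∧
    ((∀ ε : ℝ, 0 < ε → ∃ C : ℝ, ∀ (N : ℕ) (x : ℝ) (b : ℤ) (q : ℕ), 1 ≤ N → 1 ≤ q →
      IsCoprime b (q : ℤ) → |x - b / q| ≤ 1 / (q : ℝ) ^ 2 →
      ‖F N x‖ ≤ C * (N : ℝ) ^ ε *
        (min (N / Real.sqrt q + (N : ℝ) ^ (43 / 54 : ℝ)) ((N : ℝ) ^ a) + Real.sqrt (q * N))) → ZeroFree a) := by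
  simp only [F_eq]
  exact Pool.Agent.Helper25.WH.wpp ha

/-- The bounds with the exponents `a` and `c`. -/
theorem main : ∀ a c : ℝ, 1 / 2 ≤ a → a ≤ 1 → 1 / 2 ≤ c → c ≤ 1 →
    (ZeroFree a → PairBound c → Bound (h a) (g a c)) ∧ (Bound a c → ZeroFree (min a c)) := by
  intro a c ha1 ha2 hc1 hc2
  constructor
  · intro hZ hP ε hε
    obtain ⟨C1, h1⟩ := (old a ha1).1 hZ ε hε
    obtain ⟨C2, h2⟩ := Helper55.CM.zp a c ha1 ha2 hc1 hc2 hZ (by
      intro ε hε
      obtain ⟨C, hC⟩ := hP ε hε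
      exact ⟨C, fun M N hM _ k hk1 hk2 => hC N M k hM hk1 hk2⟩) ε hε
    refine ⟨max |C1| |C2|, fun N x b q hN hq hb hx => ?_⟩
    have hN0 : (0 : ℝ) < N := by exact_mod_cast hN
    have h3 := h1 N x b q hN hq hb hx
    have h4 := h2 N hN x
    rw [← F_eq', Real.rpow_add hN0] at h4
    have hNe : 0 ≤ (N : ℝ) ^ ε := by positivity
    have hA : 0 ≤ min (N / Real.sqrt q + (N : ℝ) ^ (43 / 54 : ℝ)) ((N : ℝ) ^ h a) + Real.sqrt (q * N) := by
      positivity
    have hB : 0 ≤ (N : ℝ) ^ g a c := by positivity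
    have hM : 0 ≤ max |C1| |C2| := le_max_of_le_left (abs_nonneg _)
    have h5 : C1 ≤ max |C1| |C2| := (le_abs_self _).trans (le_max_left _ _)
    have h6 : C2 ≤ max |C1| |C2| := (le_abs_self _).trans (le_max_right _ _)
    rw [mul_min_of_nonneg _ _ (by positivity)]
    refine le_min ?_ ?_
    · refine h3.trans ?_
      gcongr
    · refine h4.trans ?_
      calc C2 * ((N : ℝ) ^ Helper55.CM.gg a c * (N : ℝ) ^ ε) = C2 * (N : ℝ) ^ ε * (N : ℝ) ^ g a c := by
            unfold Helper55.CM.gg g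
            ring
        _ ≤ max |C1| |C2| * (N : ℝ) ^ ε * (N : ℝ) ^ g a c := by gcongr
  · intro hB
    refine (old (min a c) (le_min ha1 hc1)).2 fun ε hε => ?_
    obtain ⟨C, hC⟩ := hB ε hε
    refine ⟨|C|, fun N x b q hN hq hb hx => ?_⟩
    have hN1 : (1 : ℝ) ≤ N := by exact_mod_cast hN
    have h1 := hC N x b q hN hq hb hx
    obtain ⟨A, hA⟩ : ∃ A : ℝ, A = N / Real.sqrt q + (N : ℝ) ^ (43 / 54 : ℝ) := ⟨_, rfl⟩
    obtain ⟨B, hB'⟩ : ∃ B : ℝ, B = Real.sqrt (q * N) := ⟨_, rfl⟩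
    rw [← hA, ← hB'] at h1 ⊢
    have hA0 : 0 ≤ A := by rw [hA]; positivity
    have hB0 : 0 ≤ B := by rw [hB']; positivity
    have h2 : min (min A ((N : ℝ) ^ a) + B) ((N : ℝ) ^ c) ≤ min A ((N : ℝ) ^ min a c) + B := by
      have e1 : (N : ℝ) ^ min a c = min ((N : ℝ) ^ a) ((N : ℝ) ^ c) := by
        rcases le_total a c with h | h
        · rw [min_eq_left h, min_eq_left (Real.rpow_le_rpow_of_exponent_le hN1 h)]
        · rw [min_eq_right h, min_eq_right (Real.rpow_le_rpow_of_exponent_le hN1 h)]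
      rw [e1, ← min_assoc]
      rcases le_total (min A ((N : ℝ) ^ a)) ((N : ℝ) ^ c) with h | h
      · rw [min_eq_left h]
        exact min_le_left _ _
      · rw [min_eq_right h]
        exact (min_le_right _ _).trans (by linarith)
    have h3 : 0 ≤ min A ((N : ℝ) ^ min a c) + B := by positivity
    calc ‖F N x‖ ≤ C * (N : ℝ) ^ ε * min (min A ((N : ℝ) ^ a) + B) ((N : ℝ) ^ c) := h1
      _ ≤ |C| * (N : ℝ) ^ ε * min (min A ((N : ℝ) ^ a) + B) ((N : ℝ) ^ c) := by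
          gcongr
          exact le_abs_self C
      _ ≤ |C| * (N : ℝ) ^ ε * (min A ((N : ℝ) ^ min a c) + B) := by gcongr

lemma F_trivial (N : ℕ) (x : ℝ) : ‖F N x‖ ≤ N := by
  unfold F
  refine (norm_sum_le _ _).trans ?_
  have h1 : ∀ n ∈ Icc 1 N, ‖(ArithmeticFunction.moebius n : ℂ) * Complex.exp (2 * Real.pi * Complex.I * n * x)‖ ≤ 1 := by
    intro n _
    have h2 : (2 * Real.pi * Complex.I * n * x : ℂ) = ((2 * Real.pi * n * x : ℝ) : ℂ) * Complex.I := by
      push_cast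
      ring
    rw [norm_mul, h2, Complex.norm_exp_ofReal_mul_I, mul_one, Complex.norm_intCast]
    exact_mod_cast ArithmeticFunction.abs_moebius_le_one
  refine (Finset.sum_le_sum h1).trans ?_
  simp

lemma F_period (N : ℕ) (x : ℝ) : F N x = F N (Int.fract x) := by
  unfold F
  refine Finset.sum_congr rfl fun n _ => ?_
  congr 1
  rw [Complex.exp_eq_exp_iff_exists_int]
  refine ⟨n * ⌊x⌋, ?_⟩
  have h1 : (x : ℂ) = (⌊x⌋ : ℂ) + ((Int.fract x : ℝ) : ℂ) := by
    exact_mod_cast (Int.floor_add_fract x).symm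
  rw [h1]
  push_cast
  ring

lemma zeroFree_one : ZeroFree 1 := by
  intro q _ χ s hs h1
  exact DirichletCharacter.LFunction_ne_zero_of_one_le_re χ (Or.inr h1) hs.le

lemma pairBound_one : PairBound 1 := by
  intro ε hε
  refine ⟨1, fun N M k hM _ _ => ?_⟩
  have h1 : |((∑ n ∈ Icc 1 M, ArithmeticFunction.moebius n * ArithmeticFunction.moebius (n + k) : ℤ) : ℝ)| ≤ M := by
    push_cast
    refine (Finset.abs_sum_le_sum_abs _ _).trans ?_
    refine (Finset.sum_le_sum (g := fun _ => (1 : ℝ)) fun n _ => ?_).trans (by simp)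
    rw [abs_mul]
    have h2 : |(ArithmeticFunction.moebius n : ℝ)| ≤ 1 := by exact_mod_cast ArithmeticFunction.abs_moebius_le_one
    have h3 : |(ArithmeticFunction.moebius (n + k) : ℝ)| ≤ 1 := by exact_mod_cast ArithmeticFunction.abs_moebius_le_one
    exact mul_le_one₀ h2 (abs_nonneg _) h3
  refine h1.trans ?_
  rw [one_mul]
  rcases Nat.eq_zero_or_pos N with hN | hN
  · subst hN
    have : M = 0 := by omega
    subst this
    simp only [Nat.cast_zero]
    positivity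
  · have hN1 : (1 : ℝ) ≤ N := by exact_mod_cast hN
    calc (M : ℝ) ≤ N := by exact_mod_cast hM
      _ = (N : ℝ) ^ (1 : ℝ) := (Real.rpow_one _).symm
      _ ≤ (N : ℝ) ^ (1 + ε) := Real.rpow_le_rpow_of_exponent_le hN1 (by linarith)

lemma Theta_mem : 1 / 2 ≤ Theta ∧ Theta ≤ 1 ∧ ZeroFree Theta := by
  have hb : BddBelow {a : ℝ | 1 / 2 ≤ a ∧ ZeroFree a} := ⟨1 / 2, fun a h => h.1⟩
  have hm : (1 : ℝ) ∈ {a : ℝ | 1 / 2 ≤ a ∧ ZeroFree a} := ⟨by norm_num, zeroFree_one⟩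
  refine ⟨le_csInf ⟨1, hm⟩ fun a h => h.1, csInf_le hb hm, ?_⟩
  intro q _ χ s hs h1
  obtain ⟨a, ha, hlt⟩ := exists_lt_of_csInf_lt ⟨1, hm⟩ hs
  exact ha.2 q χ s hlt h1

lemma gamma_mem : 1 / 2 ≤ gamma ∧ gamma ≤ 1 ∧ PairBound gamma := by
  have hb : BddBelow {c : ℝ | 1 / 2 ≤ c ∧ PairBound c} := ⟨1 / 2, fun a h => h.1⟩
  have hm : (1 : ℝ) ∈ {c : ℝ | 1 / 2 ≤ c ∧ PairBound c} := ⟨by norm_num, pairBound_one⟩
  refine ⟨le_csInf ⟨1, hm⟩ fun a h => h.1, csInf_le hb hm, ?_⟩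
  intro ε hε
  obtain ⟨c, hc, hlt⟩ := exists_lt_of_csInf_lt ⟨1, hm⟩ (show gamma < gamma + ε / 2 by linarith)
  obtain ⟨C, hC⟩ := hc.2 (ε / 2) (by linarith)
  refine ⟨|C|, fun N M k hM hk hN => (hC N M k hM hk hN).trans ?_⟩
  have hN1 : (1 : ℝ) ≤ N := by exact_mod_cast hk.trans hN
  calc C * (N : ℝ) ^ (c + ε / 2) ≤ |C| * (N : ℝ) ^ (c + ε / 2) := by
        gcongr
        exact le_abs_self C
    _ ≤ |C| * (N : ℝ) ^ (gamma + ε) :=
        mul_le_mul_of_nonneg_left (Real.rpow_le_rpow_of_exponent_le hN1 (by linarith)) (abs_nonneg _)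

lemma approx (x : ℝ) {N : ℕ} (hN : 1 ≤ N) : ∃ (b : ℤ) (q : ℕ), 1 ≤ q ∧ IsCoprime b (q : ℤ) ∧
    |x - b / q| ≤ 1 / (q : ℝ) ^ 2 ∧ (q : ℝ) ^ 2 ≤ N := by
  obtain ⟨r, h1, h2⟩ := Real.exists_rat_abs_sub_le_and_den_le x (n := Nat.sqrt N) (Nat.sqrt_pos.2 hN)
  have hq : 0 < r.den := r.den_pos
  have hq' : (0 : ℝ) < r.den := by exact_mod_cast hq
  refine ⟨r.num, r.den, hq, ?_, ?_, ?_⟩
  · rw [Int.isCoprime_iff_nat_coprime]
    simpa using r.reduced
  · have h3 : (r : ℝ) = (r.num : ℝ) / (r.den : ℝ) := by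
      exact_mod_cast (Rat.num_div_den r).symm
    rw [← h3]
    refine h1.trans ?_
    rw [sq]
    gcongr
    have : (r.den : ℝ) ≤ (Nat.sqrt N : ℝ) := by exact_mod_cast h2
    linarith
  · have h3 : r.den ^ 2 ≤ N := (Nat.pow_le_pow_left h2 2).trans (Nat.sqrt_le' N)
    exact_mod_cast h3

lemma sup_of_bound {s t : ℝ} (hs : 3 / 4 ≤ s) (h : Bound s t) : ∀ ε : ℝ, 0 < ε → ∃ C : ℝ, ∀ N : ℕ, 1 ≤ N → ∀ x : ℝ,
    ‖F N x‖ ≤ C * (N : ℝ) ^ (min s t + ε) := by
  intro ε hε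
  obtain ⟨C, hC⟩ := h ε hε
  refine ⟨|C| * 2, fun N hN x => ?_⟩
  have hN1 : (1 : ℝ) ≤ N := by exact_mod_cast hN
  have hN0 : (0 : ℝ) < N := by linarith
  obtain ⟨b, q, hq, hb, hx, hqN⟩ := approx x hN
  have h1 := hC N x b q hN hq hb hx
  have hq0 : (0 : ℝ) < q := by exact_mod_cast hq
  have h2 : Real.sqrt (q * N) ≤ (N : ℝ) ^ s := by
    have h3 : (q : ℝ) ≤ (N : ℝ) ^ (1 / 2 : ℝ) := by
      rw [← Real.sqrt_eq_rpow]
      exact Real.le_sqrt_of_sq_le hqN
    calc Real.sqrt (q * N) ≤ Real.sqrt ((N : ℝ) ^ (1 / 2 : ℝ) * N) := Real.sqrt_le_sqrt (by gcongr)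
      _ = (N : ℝ) ^ (3 / 4 : ℝ) := by
          rw [Real.sqrt_eq_rpow]
          nth_rewrite 2 [← Real.rpow_one (N : ℝ)]
          rw [← Real.rpow_add hN0, ← Real.rpow_mul hN0.le]
          norm_num
      _ ≤ (N : ℝ) ^ s := Real.rpow_le_rpow_of_exponent_le hN1 hs
  have h3 : min (min (N / Real.sqrt q + (N : ℝ) ^ (43 / 54 : ℝ)) ((N : ℝ) ^ s) + Real.sqrt (q * N)) ((N : ℝ) ^ t) ≤
      2 * (N : ℝ) ^ min s t := by
    rcases le_total s t with hst | hst
    · rw [min_eq_left hst]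
      refine (min_le_left _ _).trans ?_
      have := min_le_right (N / Real.sqrt q + (N : ℝ) ^ (43 / 54 : ℝ)) ((N : ℝ) ^ s)
      linarith
    · rw [min_eq_right hst]
      refine (min_le_right _ _).trans ?_
      have : 0 ≤ (N : ℝ) ^ t := by positivity
      linarith
  calc ‖F N x‖ ≤ C * (N : ℝ) ^ ε * min (min (N / Real.sqrt q + (N : ℝ) ^ (43 / 54 : ℝ)) ((N : ℝ) ^ s) + Real.sqrt (q * N))
        ((N : ℝ) ^ t) := h1
    _ ≤ |C| * (N : ℝ) ^ ε * min (min (N / Real.sqrt q + (N : ℝ) ^ (43 / 54 : ℝ)) ((N : ℝ) ^ s) + Real.sqrt (q * N))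
        ((N : ℝ) ^ t) := by
        gcongr
        exact le_abs_self C
    _ ≤ |C| * (N : ℝ) ^ ε * (2 * (N : ℝ) ^ min s t) := by gcongr
    _ = |C| * 2 * (N : ℝ) ^ (min s t + ε) := by
        rw [Real.rpow_add hN0]
        ring

lemma bound_one : Bound 1 1 := by
  have hB := (main 1 1 (by norm_num) le_rfl (by norm_num) le_rfl).1 zeroFree_one pairBound_one
  have h1 : h 1 = 1 := by
    unfold h
    exact max_eq_left ((min_le_right _ _).trans (by norm_num))
  have h2 : g 1 1 = 1 := by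
    unfold g
    norm_num
  rw [h1, h2] at hB
  exact hB

lemma half_le_theta : 1 / 2 ≤ theta := by
  have h1 : theta = Helper92.GB.theta Helper55.CM.mu := by
    unfold theta Helper92.GB.theta
    simp only [F_eq']
  rw [h1]
  refine Helper92.GB.half_le_theta _ (fun n => ?_) ⟨1, zero_le_one, 1, fun N _ x _ => ?_⟩
  · rfl
  · rw [← F_eq', Real.rpow_one, one_mul]
    exact F_trivial N x

theorem exponents : Theta ≤ theta ∧ theta ≤ min (h Theta) (g Theta gamma) := by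
  obtain ⟨hT1, hT2, hT3⟩ := Theta_mem
  obtain ⟨hg1, hg2, hg3⟩ := gamma_mem
  have hne : {a : ℝ | 0 ≤ a ∧ ∃ C : ℝ, ∀ N : ℕ, 1 ≤ N → ∀ x ∈ Set.Icc (0 : ℝ) 1, ‖F N x‖ ≤ C * (N : ℝ) ^ a}.Nonempty :=
    ⟨1, zero_le_one, 1, fun N _ x _ => by
      rw [Real.rpow_one, one_mul]
      exact F_trivial N x⟩
  constructor
  · have key : ∀ a : ℝ, 0 ≤ a → (∃ C : ℝ, ∀ N : ℕ, 1 ≤ N → ∀ x ∈ Set.Icc (0 : ℝ) 1, ‖F N x‖ ≤ C * (N : ℝ) ^ a) →
        Theta ≤ max a (1 / 2) := by
      rintro a ha ⟨C, hC⟩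
      rcases le_or_gt 1 a with h1 | h1
      · exact hT2.trans (h1.trans (le_max_left _ _))
      · have hm1 : 1 / 2 ≤ max a (1 / 2) := le_max_right _ _
        have hm2 : max a (1 / 2) ≤ 1 := max_le h1.le (by norm_num)
        have hB : Bound 1 (max a (1 / 2)) := by
          intro ε hε
          obtain ⟨C1, hC1⟩ := bound_one ε hε
          refine ⟨max |C| |C1|, fun N x b q hN hq hb hx => ?_⟩
          have hN1 : (1 : ℝ) ≤ N := by exact_mod_cast hN
          have h2 := hC1 N x b q hN hq hb hx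
          have h3 : ‖F N x‖ ≤ |C| * (N : ℝ) ^ ε * (N : ℝ) ^ max a (1 / 2) := by
            rw [F_period]
            calc ‖F N (Int.fract x)‖ ≤ C * (N : ℝ) ^ a := hC N hN _ ⟨Int.fract_nonneg x, (Int.fract_lt_one x).le⟩
              _ ≤ |C| * (N : ℝ) ^ a := by
                  gcongr
                  exact le_abs_self C
              _ ≤ |C| * (N : ℝ) ^ max a (1 / 2) :=
                  mul_le_mul_of_nonneg_left (Real.rpow_le_rpow_of_exponent_le hN1 (le_max_left _ _)) (abs_nonneg _)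
              _ ≤ |C| * (N : ℝ) ^ ε * (N : ℝ) ^ max a (1 / 2) := by
                  have h4 : (1 : ℝ) ≤ (N : ℝ) ^ ε := Real.one_le_rpow hN1 hε.le
                  have h5 : 0 ≤ |C| * (N : ℝ) ^ max a (1 / 2) := by positivity
                  nlinarith
          obtain ⟨A, hA⟩ : ∃ A : ℝ, A = min (N / Real.sqrt q + (N : ℝ) ^ (43 / 54 : ℝ)) ((N : ℝ) ^ (1 : ℝ)) + Real.sqrt (q * N) :=
            ⟨_, rfl⟩
          have hA0 : 0 ≤ A := by
            rw [hA]
            positivity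
          rw [← hA] at h2 ⊢
          have hM : 0 ≤ max |C| |C1| := le_max_of_le_left (abs_nonneg _)
          rw [mul_min_of_nonneg _ _ (by positivity)]
          refine le_min ?_ ?_
          · calc ‖F N x‖ ≤ C1 * (N : ℝ) ^ ε * min A ((N : ℝ) ^ (1 : ℝ)) := h2
              _ ≤ |C1| * (N : ℝ) ^ ε * A := by
                  gcongr
                  · exact le_abs_self C1
                  · exact min_le_left _ _
              _ ≤ max |C| |C1| * (N : ℝ) ^ ε * A := by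
                  gcongr
                  exact le_max_right _ _
          · refine h3.trans ?_
            gcongr
            exact le_max_left _ _
        have hZ := (main 1 (max a (1 / 2)) (by norm_num) le_rfl hm1 hm2).2 hB
        rw [min_eq_right hm2] at hZ
        exact csInf_le ⟨1 / 2, fun a h => h.1⟩ ⟨hm1, hZ⟩
    have h1 : Theta ≤ max theta (1 / 2) := by
      by_contra hcon
      push Not at hcon
      obtain ⟨a, ⟨ha0, hC⟩, hlt⟩ := exists_lt_of_csInf_lt hne ((le_max_left _ _).trans_lt hcon : theta < Theta)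
      have h2 := key a ha0 hC
      have h3 : 1 / 2 < Theta := (le_max_right _ _).trans_lt hcon
      exact absurd h2 (not_le.2 (max_lt hlt h3))
    rwa [max_eq_left half_le_theta] at h1
  · have hB := (main Theta gamma hT1 hT2 hg1 hg2).1 hT3 hg3
    have hh : 3 / 4 ≤ h Theta := by
      unfold h
      refine le_max_of_le_right (le_min ?_ (by norm_num))
      linarith
    have hmin : 0 ≤ min (h Theta) (g Theta gamma) := by
      refine le_min (by linarith) ?_
      unfold g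
      refine le_min (by linarith) (le_max_of_le_right (le_max_of_le_right ?_))
      linarith
    refine le_of_forall_pos_le_add fun ε hε => ?_
    refine csInf_le ⟨0, fun a h => h.1⟩ ⟨by linarith, ?_⟩
    obtain ⟨C, hC⟩ := sup_of_bound hh hB ε hε
    exact ⟨C, fun N hN x _ => hC N hN x⟩

/-- The sup norm of the exponential sum with the Moebius function, the zeros of Dirichlet L-functions and the two
point correlations: an inequality between the exponents, and the bounds for all pairs of exponents. -/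
theorem result : (Theta ≤ theta ∧ theta ≤ min (h Theta) (g Theta gamma)) ∧
    ∀ a c : ℝ, 1 / 2 ≤ a → a ≤ 1 → 1 / 2 ≤ c → c ≤ 1 →
      (ZeroFree a → PairBound c → Bound (h a) (g a c)) ∧ (Bound a c → ZeroFree (min a c)) :=
  ⟨exponents, main⟩

end Pool.Agent.Results.MP_b6b996_nt.ZerosAndPairs
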